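import Pool.Agent.T2H29.SW.M5

/-!
# A Weyl bound for Hecke L-functions of all number fields to smooth squarefree moduli

`K` is any number field, `m = [K : ℚ]`, and `χ` is any primitive unitary Hecke character of `K`
modulo `𝔠 𝔟`, where `𝔟` is squarefree and coprime to `𝔠`, of any infinite type
`∏_v (σ_v α / |σ_v α|) ^ k_v |σ_v α| ^ (i τ_v)`.  Then `L(s, χ) = ∑_I χ(I) N(I)^(-s)` is entire and

`|L(1/2 + i t, χ)| ≤ C(K, ε) ((1 + |t|) (1 + ∑ (|k_v| + |τ_v|))) ^ (3 m + 1) N(𝔠𝔟)^ε (N𝔠 + (N𝔟)^(1/2))^(1/2)`.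

All primes are allowed: above `2`, ramified, of any degree.  For a squarefree conductor `𝔮` with a
divisor `𝔠` of norm about `N(𝔮)^(1/3)` (for example if all prime divisors of `𝔮` have norm at most
`N(𝔮)^δ`, with an error `δ / 2` in the exponent) this is the Weyl bound `N(𝔮)^(1/6 + ε)`; it improves
the convexity bound `N(𝔮)^(1/4)` as soon as `𝔮` has a divisor `𝔠` with
`N(𝔮)^δ ≤ N𝔠 ≤ N(𝔮)^(1/2 - δ)`, with an explicit exponent.

Proof (modules `Pool.Agent.T2H29.SW`, files `M1`-`M5` and `B1`-`B13`): differencing over the sublattice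
`𝔠 I` of an ideal `I`, completion modulo `𝔟`.  The complete sums are products, over the prime divisors
`P` of `𝔟`, of mixed sums `∑ χ(x + h) conj χ(x) ψ(x)` over the residue fields `𝓞 K / P`, and these are at
most `2 N(P)^(1/2)` by Weil's bound (`M1`, `M2`, for all finite fields): the L-function of the mixed sum
has degree two, and the product of these L-functions over all scalings of `ψ` is bounded by means of
`χ((z^q - z + a) / (z^q - z))` over the extensions of the residue field, for which the bound of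
`Pool.Agent.H435R3.Weil` (Stepanov's method) holds.  All ideal lattices are balanced in all unit
directions, so the shifts divisible by an ideal are as few as they can be.
-/

set_option autoImplicit false

open NumberField NumberField.InfinitePlace

namespace Pool.Agent.Results.MP_52e316_nt.HeckeWeylSmoothGLm

variable {K : Type} [Field K] [NumberField K]

/-- The unitary character `α ↦ ∏_v (σ_v α / |σ_v α|) ^ k_v |σ_v α| ^ (i τ_v)`; `σ_v` is an
embedding for the infinite place `v` and `|σ_v α| = v α`.  At a real place the first factor is the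
`k_v`-th power of the sign. -/
noncomputable def infType (k : InfinitePlace K → ℤ) (τ : InfinitePlace K → ℝ) (α : K) : ℂ :=
  ∏ v : InfinitePlace K, (v.embedding α / ((v α : ℝ) : ℂ)) ^ k v *
    ((v α : ℝ) : ℂ) ^ ((τ v : ℂ) * Complex.I)

/-- `χ` is a primitive unitary Hecke character of `K` modulo `𝔪` of infinite type given by `k` and
`τ`, extended by zero to the ideals not coprime to `𝔪`. -/
structure IsPrimitiveHecke (𝔪 : Ideal (𝓞 K)) (k : InfinitePlace K → ℤ)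
    (τ : InfinitePlace K → ℝ) (χ : Ideal (𝓞 K) →* ℂ) : Prop where
  /-- it vanishes at the ideals not coprime to `𝔪` -/
  zero : ∀ I, ¬ IsCoprime I 𝔪 → χ I = 0
  /-- it is unitary -/
  norm : ∀ I, IsCoprime I 𝔪 → ‖χ I‖ = 1
  /-- the values at the principal ideals `(α)`, `α ≡ 1` modulo `𝔪` -/
  infinite_type : ∀ α : 𝓞 K, α - 1 ∈ 𝔪 → χ (Ideal.span {α}) = infType k τ (α : K)
  /-- it does not have this property modulo any larger ideal `𝔫` -/
  primitive : ∀ 𝔫 : Ideal (𝓞 K), 𝔪 < 𝔫 → ∃ α : 𝓞 K, α - 1 ∈ 𝔫 ∧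
    IsCoprime (Ideal.span {α}) 𝔪 ∧ χ (Ideal.span {α}) ≠ infType k τ (α : K)

theorem result (K : Type) [Field K] [NumberField K] (ε : ℝ) (hε : 0 < ε) : ∃ C : ℝ, 0 < C ∧
    ∀ (𝔠 𝔟 : Ideal (𝓞 K)) (k : InfinitePlace K → ℤ) (τ : InfinitePlace K → ℝ)
    (χ : Ideal (𝓞 K) →* ℂ),
    𝔠 * 𝔟 ≠ ⊥ → 𝔠 * 𝔟 ≠ ⊤ → Squarefree 𝔟 → IsCoprime 𝔠 𝔟 → IsPrimitiveHecke (𝔠 * 𝔟) k τ χ →
    ∃ L : ℂ → ℂ, Differentiable ℂ L ∧
    (∀ s : ℂ, 1 < s.re →
      HasSum (fun I : Ideal (𝓞 K) => χ I * (Ideal.absNorm I : ℂ) ^ (-s)) (L s)) ∧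
    ∀ t : ℝ, ‖L (1 / 2 + t * Complex.I)‖ ≤
      C * ((1 + ∑ v, (|(k v : ℝ)| + |τ v|)) * (1 + |t|)) ^ (3 * Module.finrank ℚ K + 1) *
        (Ideal.absNorm (𝔠 * 𝔟) : ℝ) ^ ε * √(Ideal.absNorm 𝔠 + √(Ideal.absNorm 𝔟)) := by
  obtain ⟨C, hC0, hC⟩ := Pool.Agent.T2H29.SW.S_thm K ε hε
  refine ⟨C, hC0, fun 𝔠 𝔟 k τ χ hbot htop hsq hco hχ => ?_⟩
  have hinf : ∀ α : 𝓞 K, α ≠ 0 → Pool.Agent.T2H29.SW.infK (k, τ) (α : K) = infType k τ (α : K) :=
    fun α hα => Pool.Agent.T2H29.SW.infK_ityp (k, τ) (by exact_mod_cast hα)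
  refine hC 𝔠 𝔟 (k, τ) χ hbot htop hsq hco ⟨hχ.zero, hχ.norm, ?_, ?_⟩
  · intro α hα
    have h0 : α ≠ 0 := by
      rintro rfl
      apply htop
      rw [Ideal.eq_top_iff_one]
      have := neg_mem hα
      simpa using this
    rw [hinf α h0]
    exact hχ.infinite_type α hα
  · intro 𝔫 h𝔫
    obtain ⟨α, h1, h2, h3⟩ := hχ.primitive 𝔫 h𝔫
    refine ⟨α, h1, h2, ?_⟩
    rw [hinf α (Pool.Agent.T2H29.SW.cop_ne htop h2)]
    exact h3

end Pool.Agent.Results.MP_52e316_nt.HeckeWeylSmoothGLm
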